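import Mathlib
import Pool.Agent.Lib_helper13.APTF.Fin

/-!
# MP_6c4857_nt: transversals of almost primes with a positive proportion of primes

Rows and columns of `A_p` are numbered `0, ..., p - 1`; the entry in row `i` and column `j` is
`i p + j + 1`.
-/

namespace Pool.Agent.Results.MP_6c4857_nt.AlmostPrimeTransversal

/-- There are `K` and `c > 0` such that for every large prime `p` the array `A_p` has a transversal
all of whose entries are larger than `1`, have fewer than `2 K` prime factors (with multiplicity)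
and have only prime factors `q` with `q ^ K > p`, and at least `c p` of whose entries are prime. -/
theorem result : ∃ K : ℕ, ∃ c : ℝ, 0 < c ∧ ∃ p₀ : ℕ, ∀ p : ℕ, p.Prime → p₀ ≤ p →
    ∃ σ : Equiv.Perm (Fin p),
      (∀ i : Fin p, 1 < (i : ℕ) * p + (σ i : ℕ) + 1 ∧
        ((i : ℕ) * p + (σ i : ℕ) + 1).primeFactorsList.length < 2 * K ∧
        ∀ q : ℕ, q.Prime → q ∣ (i : ℕ) * p + (σ i : ℕ) + 1 → p < q ^ K) ∧
      c * p ≤ ((Finset.univ.filter
        (fun i : Fin p => ((i : ℕ) * p + (σ i : ℕ) + 1).Prime)).card : ℝ) := by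
  obtain ⟨K, _, c, hc, p₀, h⟩ := Pool.Agent.APT.main
  refine ⟨K, c, hc, p₀, fun p hp hp0 => ?_⟩
  obtain ⟨σ, h1, h2⟩ := h p hp hp0
  refine ⟨σ, h1, le_trans h2 (le_of_eq ?_)⟩
  refine congrArg (fun n : ℕ => (n : ℝ)) (congrArg Finset.card ?_)
  ext i
  simp only [Finset.mem_filter, Pool.Agent.APT.cell]

end Pool.Agent.Results.MP_6c4857_nt.AlmostPrimeTransversal
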